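import Pool.Agent.Lib.MP_e1fd79_gt.H59.Main
import Pool.Agent.Lib.MP_e1fd79_gt.H59.Ric4
import Pool.Agent.Lib.MP_e1fd79_gt.H7.Vol
import Pool.Agent.Lib.MP_e1fd79_gt.H63.Lip
import Pool.Agent.Lib.MP_e1fd79_gt.H63.Seg
import Pool.Agent.Lib.MP_e1fd79_gt.H35.LipF
import Pool.Agent.Lib.MP_e1fd79_gt.H35.IntMod
import Pool.Agent.Lib.MP_e1fd79_gt.H6.TUBE
import Pool.Agent.Lib.MP_e1fd79_gt.H6.COMP
import Pool.Agent.Lib.MP_e1fd79_gt.H6.PROF

/-!
# The local integral bound for the scalar curvature fails in every dimension `n ≥ 3`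

For every `n ≥ 3`, every `lam > 0` and every `C` there is a complete Riemannian metric on `ℝⁿ` with
`Ric ≥ -lam` and a point `p` such that the integral of the scalar curvature over the unit geodesic
ball about `p` exceeds `C`.
-/

set_option autoImplicit false

open MeasureTheory
open Pool.Agent.Lib.MP_e1fd79_gt

namespace Pool.Agent.Results.MP_e1fd79_gt.NoLocalScalarBound

/-- Disproof of the local integral bound for the scalar curvature under a lower Ricci bound. -/
theorem result (n : ℕ) (hn : 3 ≤ n) (lam : ℝ) (hlam : 0 < lam) (C : ℝ) :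
    ∃ M : RMetric n, M.Complete ∧ M.RicciGE lam ∧ ∃ p : Fin n → ℝ,
      IntegrableOn M.scal (M.ball p 1) M.vol ∧ C < ∫ x in M.ball p 1, M.scal x ∂M.vol :=
  H59.main_of H59.met_holds H7.vol_holds H59.qf_holds H59.ric_holds H63.seg_holds
    (H6.TUBE_holds H59.qf_holds) (H35.lipf_holds H63.lip_holds H59.qf_holds) H6.COMP_holds
    H6.PROF_holds H35.int_holds H7.box_holds n hn lam hlam C

end Pool.Agent.Results.MP_e1fd79_gt.NoLocalScalarBound
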